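import Pool.Agent.QF.Main

/-!
# Splittings over two-ended subgroups and quasi-isometries: conditions on the vertex groups
-/

namespace Pool.Agent.Results.MP_bbdce3_al.NoetherianVertexGroups

open Pool.Agent.QIS

/-- Let `G` be a finitely generated one-ended group with a splitting over a two-ended group, and let
`k` be a field. Suppose that every vertex group is finitely presented or has a group algebra over
`k` that embeds in a left Noetherian ring, and that some vertex group is not finitely presented and
virtually torsion-free. Then every finitely generated group quasi-isometric to `G` splits over a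
two-ended subgroup. -/
theorem result (G H : Type) [Group G] [Group H] (S : Set G) (S' : Set H)
    (hS : S.Finite) (hS' : S'.Finite)
    (hSg : Subgroup.closure S = ⊤) (hS'g : Subgroup.closure S' = ⊤)
    (hone : OneEnded S) (E : Splitting G) (hC : TwoEnded E.edgeGroup) (k : Type) [Field k]
    (hv : ∀ v : E.V, Group.IsFinitelyPresented (MulAction.stabilizer G v) ∨
      ∃ (R : Type) (_ : Ring R) (ι : MonoidAlgebra k (MulAction.stabilizer G v) →+* R),
        IsNoetherianRing R ∧ Function.Injective ι)
    (htf : ∃ v : E.V, ¬ Group.IsFinitelyPresented (MulAction.stabilizer G v) ∧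
      ∃ L : Subgroup (MulAction.stabilizer G v), L.FiniteIndex ∧
        ∀ g : L, g ≠ 1 → ∀ n : ℕ, 0 < n → g ^ n ≠ 1)
    (hqi : ∃ (K : ℕ) (φ : G → H), IsQI S S' K φ) : SplitsOverTwoEnded H :=
  Pool.Agent.QF.main_all G H S S' hS hS' hSg hS'g hone E hC k hv htf hqi

end Pool.Agent.Results.MP_bbdce3_al.NoetherianVertexGroups
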