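import Pool.Agent.H67.W2.Prod2

/-!
# Splittings over two-ended subgroups of a product, and quasi-isometries

No finite presentation is assumed.
-/

namespace Pool.Agent.Results.MP_bbdce3_al.ProductSubgroup

open Pool.Agent.QIS

/-- Let `G` be a finitely generated one-ended group with a splitting over a two-ended group `C`
such that `C` is contained in a subgroup of `G` which is the direct product of two finitely
generated groups, both of which grow faster than `C` does in `G`. Then every finitely generated
group quasi-isometric to `G` splits over a two-ended subgroup. -/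
theorem result (G H A₁ A₂ : Type) [Group G] [Group H] [Group A₁] [Group A₂] (S : Set G)
    (S' : Set H) (S₁ : Set A₁) (S₂ : Set A₂) (hS : S.Finite) (hS' : S'.Finite) (h₁ : S₁.Finite)
    (h₂ : S₂.Finite) (hSg : Subgroup.closure S = ⊤) (hS'g : Subgroup.closure S' = ⊤)
    (g₁ : Subgroup.closure S₁ = ⊤) (g₂ : Subgroup.closure S₂ = ⊤)
    (hone : OneEnded S) (E : Splitting G) (hC : TwoEnded E.edgeGroup)
    (ι : A₁ × A₂ →* G) (hι : Function.Injective ι) (hCA : E.edgeGroup ≤ ι.range)
    (hg₁ : GrowsFaster S E.edgeGroup S₁) (hg₂ : GrowsFaster S E.edgeGroup S₂)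
    (hqi : ∃ (K : ℕ) (φ : G → H), IsQI S S' K φ) : SplitsOverTwoEnded H :=
  prod_theorem G H A₁ A₂ S S' S₁ S₂ hS hS' h₁ h₂ hSg hS'g g₁ g₂ hone E hC ι hι hCA hg₁ hg₂ hqi

end Pool.Agent.Results.MP_bbdce3_al.ProductSubgroup
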