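import Pool.Agent.H67.W3.Main3

/-!
# Splittings over two-ended subgroups and quasi-isometries: an uncrossed edge group is enough

No finite presentation is assumed.
-/

namespace Pool.Agent.Results.MP_bbdce3_al.UncrossedEdgeGroup

open Pool.Agent.QIS

/-- Let `G` be a finitely generated one-ended group that splits over a two-ended group `C`, and
suppose that no quasi-isometry of `G` moves `C` across `C`. Then every finitely generated group
quasi-isometric to `G` splits over a two-ended subgroup. -/
theorem result (G H : Type) [Group G] [Group H] (S : Set G) (S' : Set H)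
    (hS : S.Finite) (hS' : S'.Finite)
    (hSg : Subgroup.closure S = ⊤) (hS'g : Subgroup.closure S' = ⊤)
    (hone : OneEnded S) (E : Splitting G) (hC : TwoEnded E.edgeGroup)
    (hnc : NotCrossed S E E.edgeGroup)
    (hqi : ∃ (K : ℕ) (φ : G → H), IsQI S S' K φ) : SplitsOverTwoEnded H :=
  main_theorem3 G H S S' hS hS' hSg hS'g hone E hC hnc hqi

end Pool.Agent.Results.MP_bbdce3_al.UncrossedEdgeGroup
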